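import Pool.Agent.H420_NCF.K1
import Pool.Agent.H420_NCF.K2
import Pool.Agent.H73.ST.Stm

/-!
# Part IND of the exact sampler: linear independence over `ℚ` is decided in polynomial time

The relations between the rows are computed by lattice reduction (starting library,
`Pool.Agent.H420_NCF.K1`, `K2`); the vectors are independent iff all of them are zero.
-/

set_option autoImplicit false

namespace Pool.Agent.Helper31.ST

open Pool.Agent.NPC Pool.Agent.H687R2.LLL Pool.Agent.H420_NCF Pool.Agent.H73.ST

theorem poly_dv : NPC.Poly dv := by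
  unfold dv
  exact NPC.Poly.ite (p := fun e : ℕ => e = 1) (NPC.Poly.decide_eq NPC.Poly.id (NPC.Poly.const 1)) (NPC.Poly.const 1)
    (NPC.Poly.ite (p := fun e : ℕ => e = 2) (NPC.Poly.decide_eq NPC.Poly.id (NPC.Poly.const 2)) (NPC.Poly.const (-1))
      (NPC.Poly.const 0))

/-- the integer matrix -/
def zm (vs : List (List ℕ)) : List (List ℤ) := vs.map fun v => v.map dv

theorem poly_zm : NPC.Poly zm :=
  NPC.Poly.map (F := fun (_ : List (List ℕ)) (v : List ℕ) => v.map dv) NPC.Poly.id
    (NPC.Poly.map (F := fun (_ : List (List ℕ) × List ℕ) (e : ℕ) => dv e) (NPC.Poly.snd NPC.Poly.id)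
      (poly_dv.comp (NPC.Poly.snd NPC.Poly.id)))

/-- all relations are zero -/
def tst (kq : List (List ℤ) → List (List ℤ)) (vs : List (List ℕ)) : Bool :=
  (kq (zm vs)).all fun u => u.all fun x => decide (x = 0)

theorem poly_tst {kq : List (List ℤ) → List (List ℤ)} (hk : NPC.Poly kq) : NPC.Poly (tst kq) :=
  NPC.Poly.all (p := fun (_ : List (List ℕ)) (u : List ℤ) => u.all fun x => decide (x = 0))
    (hk.comp poly_zm)
    (NPC.Poly.all (p := fun (_ : List (List ℕ) × List ℤ) (x : ℤ) => decide (x = 0))
      (NPC.Poly.snd NPC.Poly.id) (NPC.Poly.decide_eq (NPC.Poly.snd NPC.Poly.id) (NPC.Poly.const 0)))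

theorem tst_iff {kq : List (List ℤ) → List (List ℤ)} (vs : List (List ℕ)) :
    tst kq vs = true ↔ ∀ u ∈ kq (zm vs), ∀ x ∈ u, x = 0 := by
  simp [tst, List.all_eq_true]

theorem dv_zero : dv 0 = 0 := by simp [dv]

theorem getD_zm (vs : List (List ℕ)) (i j : ℕ) :
    ((zm vs).getD i []).getD j 0 = dv ((vs.getD i []).getD j 0) := by
  unfold zm
  simp only [List.getD_eq_getElem?_getD, List.getElem?_map]
  cases h : vs[i]? with
  | none => simp [dv_zero]
  | some v =>
    simp only [Option.map_some, Option.getD_some, List.getElem?_map]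
    cases h' : v[j]? with
    | none => simp [dv_zero]
    | some e => simp

theorem s_ind : S_IND := by
  obtain ⟨kq, hk, hkq⟩ := K2 K1
  refine ⟨tst kq, poly_tst hk, fun n vs hvs => ?_⟩
  have hlen : (zm vs).length = vs.length := by simp [zm]
  have hrow : ∀ r ∈ zm vs, r.length = n := by
    intro r hr
    obtain ⟨v, hv, rfl⟩ := List.mem_map.1 hr
    simpa using hvs v hv
  obtain ⟨h1, h2⟩ := hkq (zm vs) n hrow
  have hget : ∀ i : Fin vs.length, vs.get i = vs.getD i [] := by
    intro i
    rw [List.getD_eq_getElem _ _ i.2]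
    rfl
  rw [tst_iff, Fintype.linearIndependent_iff]
  constructor
  · intro hz g hg i
    -- a relation lies in the span of the zero relations
    have hmem : (fun k : Fin (zm vs).length => g (Fin.cast hlen k)) ∈
        vspan (zm vs).length (kq (zm vs)) := by
      refine h2 _ ?_
      have e1 : ∑ k : Fin (zm vs).length, g (Fin.cast hlen k) • vq n ((zm vs).getD k []) =
          ∑ k : Fin vs.length, g k • (fun j : Fin n => ((dv ((vs.get k).getD j 0) : ℤ) : ℚ)) := by
        refine Fintype.sum_equiv (finCongr hlen) _ _ fun k => ?_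
        congr 1
        funext j
        rw [vq, getD_zm, hget]
        rfl
      rw [e1]
      exact hg
    have hbot : vspan (zm vs).length (kq (zm vs)) = ⊥ := by
      unfold vspan
      rw [Submodule.span_eq_bot]
      rintro w ⟨v, hv, rfl⟩
      funext k
      unfold vq
      rw [List.getD_eq_getElem _ _ (by rw [(h1 v hv).1]; exact k.2),
        hz v hv _ (List.getElem_mem _)]
      simp
    rw [hbot, Submodule.mem_bot] at hmem
    have := congrFun hmem (Fin.cast hlen.symm i)
    simpa using this
  · intro hli u hu x hx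
    obtain ⟨h3, h4⟩ := h1 u hu
    obtain ⟨i, hi, rfl⟩ := List.mem_iff_getElem.1 hx
    have h5 := hli (fun k : Fin vs.length => ((ent u k : ℤ) : ℚ)) (by
      funext j
      have h6 := h4 j
      unfold form at h6
      rw [hlen, ← Fin.sum_univ_eq_sum_range (fun i => ent u i * ((zm vs).getD i []).getD j 0)] at h6
      have h7 := congrArg (fun z : ℤ => (z : ℚ)) h6
      simp only [Int.cast_sum, Int.cast_mul, Int.cast_zero] at h7
      rw [Finset.sum_apply, Pi.zero_apply, ← h7]
      refine Finset.sum_congr rfl fun k _ => ?_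
      rw [Pi.smul_apply, smul_eq_mul, getD_zm, hget])
      ⟨i, by omega⟩
    simp only [ent] at h5
    rw [List.getD_eq_getElem _ _ hi] at h5
    exact_mod_cast h5

end Pool.Agent.Helper31.ST
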